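import Pool.Agent.BEH.Stmts

open MeasureTheory Set Filter Topology

namespace Pool.Agent.BEH.H50

open Pool.Agent.BEH Pool.Agent.BE01 Pool.Agent.BEL

theorem leb : LebStmt := by
  intro d B f hd hf
  have hloc : LocallyIntegrable f (volume : Measure (En d)) := by
    intro x
    refine ⟨Metric.ball x 1, Metric.ball_mem_nhds x one_pos, ?_⟩
    refine Integrable.mono' (g := fun _ => B) ?_ hf.1.aestronglyMeasurable ?_
    · exact integrableOn_const (measure_ball_lt_top.ne)
    · exact Eventually.of_forall fun y => by rw [Real.norm_eq_abs]; exact hf.2 y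
  have h := IsUnifLocDoublingMeasure.ae_tendsto_average_norm_sub (μ := (volume : Measure (En d)))
    hloc 1
  filter_upwards [h] with x hx
  intro κ hκ
  have ht := hx (l := 𝓝[>] (0 : ℝ)) (fun _ => x) (fun ρ => ρ) tendsto_id (by
    filter_upwards [self_mem_nhdsWithin] with ρ hρ
    rw [one_mul]
    exact Metric.mem_closedBall_self (le_of_lt hρ))
  set V : ℝ := (volume : Measure (En d)).real (Metric.closedBall (0 : En d) 1) with hV
  have hV0 : 0 ≤ V := measureReal_nonneg
  have hev : ∀ᶠ ρ in 𝓝[>] (0 : ℝ), (⨍ y in Metric.closedBall x ρ, ‖f y - f x‖) < κ / (V + 1) :=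
    ht.eventually (gt_mem_nhds (by positivity))
  rw [eventually_nhdsWithin_iff, Metric.eventually_nhds_iff] at hev
  obtain ⟨ε, hε, hε'⟩ := hev
  refine ⟨ε / 2, by positivity, fun ρ hρ hρε => ?_⟩
  have h1 := hε' (y := ρ) (by
    rw [Real.dist_eq, sub_zero, abs_of_pos hρ]; linarith) hρ
  have hvol : (volume : Measure (En d)).real (Metric.closedBall x ρ) = ρ ^ d * V := by
    rw [hV, measureReal_def, measureReal_def, Measure.addHaar_closedBall' _ _ hρ.le,
      ENNReal.toReal_mul, ENNReal.toReal_ofReal (by positivity)]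
    simp [En]
  have h2 : ∫ y in Metric.closedBall x ρ, ‖f y - f x‖ =
      (volume : Measure (En d)).real (Metric.closedBall x ρ) *
        ⨍ y in Metric.closedBall x ρ, ‖f y - f x‖ := by
    have h5 := measure_smul_setAverage (μ := (volume : Measure (En d)))
      (fun y => ‖f y - f x‖) (s := Metric.closedBall x ρ) measure_closedBall_lt_top.ne
    rw [← h5, smul_eq_mul]
  have h3 : ∫ y in Metric.closedBall x ρ, |f y - f x| =
      ∫ y in Metric.closedBall x ρ, ‖f y - f x‖ := rfl
  rw [h3, h2, hvol]
  have h4 : 0 ≤ ⨍ y in Metric.closedBall x ρ, ‖f y - f x‖ := by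
    rw [average_eq]
    exact smul_nonneg (by positivity) (integral_nonneg fun _ => norm_nonneg _)
  calc ρ ^ d * V * ⨍ y in Metric.closedBall x ρ, ‖f y - f x‖
      ≤ ρ ^ d * (V + 1) * (κ / (V + 1)) := by
        refine mul_le_mul ?_ h1.le h4 (by positivity)
        exact mul_le_mul_of_nonneg_left (by linarith) (by positivity)
    _ = κ * ρ ^ d := by field_simp

end Pool.Agent.BEH.H50
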