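import Pool.Agent.BEH.StmtsD

/-!
# BEH, row RAD: radial integrals in every dimension
-/

set_option autoImplicit false

namespace Pool.Agent.BEH.H50

open Set MeasureTheory Pool.Agent.BE01 Pool.Agent.BEL Pool.Agent.BEH

theorem rad : RadStmt := by
  intro d hd x f
  have : Nonempty (Fin d) := ⟨⟨0, hd⟩⟩
  have h1 : ∫ y : En d, f ‖y - x‖ = ∫ y : En d, f ‖y‖ :=
    integral_sub_right_eq_self (fun y : En d => f ‖y‖) x
  have h2 : Module.finrank ℝ (En d) = d := finrank_euclideanSpace_fin
  have hnt : Nontrivial (En d) := by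
    apply Module.nontrivial_of_finrank_pos (R := ℝ)
    rw [h2]
    exact hd
  rw [h1, integral_fun_norm_addHaar (volume : Measure (En d)) f, h2]
  unfold sphd
  simp only [smul_eq_mul, nsmul_eq_mul]
  ring

end Pool.Agent.BEH.H50
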